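import Pool.Agent.H893.SC.P_coarse
import Pool.Graph.R_seed8.H176.DT.H8

/-!
MP_5b7a2c_ag: simultaneous log uniformization of finitely many independent valuations of arbitrary
rank on arbitrary noetherian integral affine schemes.

Let `X = Spec A` be an arbitrary noetherian integral affine scheme (of any dimension and of any, also
mixed, characteristic), and let `V i` be finitely many nontrivial valuation rings (of any rank) of
its function field `F` which are centred on `X` and which are pairwise independent: `F` is the only
valuation ring which contains two of them. (Different valuation rings of rank one are independent.)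
Their centres on `X` need not be different. If each `V i` is log uniformizable on `X`, then they are
simultaneously log uniformizable: for every closed subset `V(D) ≠ X` and for every blowing-up `X₀` of
`X` there is a blowing-up `X'` of `X`, in the product of the ideal of `X₀` and of an ideal `I₁`,
which is a log desingularization of `(X, V(D))` along all the `V i` at the same time. Moreover the
zero set of `I₁` is contained in the union of the closures of the centres on `X` of the coarsenings
of rank one `U i ⊇ V i` (which exist since `A` is noetherian); so `X' → X₀` is an isomorphism outside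
of the preimages of these closures. (The last statement is new also for one valuation: the log
desingularizations in the definition of log uniformizability can be found with centres over the
closure of the centre of the coarsening of rank one.)
-/

set_option autoImplicit false

universe u

namespace Pool.Agent.Results.MP_5b7a2c_ag.SimultaneousUniformization

open Pool.Agent.W418.LU2

/-- The local ring of `Spec B` at the centre of the valuation ring `V`: the fractions of elements
of `B` whose denominators are units of `V`. -/
def centreRing {F : Type u} [Field F] (V : ValuationSubring F) (B : Subring F) : Subring F where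
  carrier := {x | ∃ a ∈ B, ∃ b ∈ B, b ≠ 0 ∧ b⁻¹ ∈ V ∧ x = a * b⁻¹}
  mul_mem' := (lo V.toSubring B).mul_mem'
  one_mem' := (lo V.toSubring B).one_mem'
  add_mem' := (lo V.toSubring B).add_mem'
  zero_mem' := (lo V.toSubring B).zero_mem'
  neg_mem' := (lo V.toSubring B).neg_mem'

/-- The chart `A[I / f]` of the blowing-up of `Spec A` in the ideal `I`. -/
def blowUpChart {F : Type u} [Field F] (A : Subring F) (I : Ideal A) (f : A) : Subring F :=
  Subring.closure ((A : Set F) ∪ {z | ∃ a ∈ I, z = (a : F) / (f : F)})

/-- `P` is a regular local ring and the zero set of `J` is a divisor with strict normal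
crossings: the radical of `J` is generated by the product of some of the elements of a regular
system of parameters. -/
def RegularPair (P : Type u) [CommRing P] (J : Ideal P) : Prop :=
  ∃ (_ : IsRegularLocalRing P) (n : ℕ) (x : Fin n → P) (s : Finset (Fin n)),
    Ideal.span (Set.range x) = IsLocalRing.maximalIdeal P ∧ ringKrullDim P = n ∧
      J.radical = Ideal.span {∏ i ∈ s, x i}

/-- The blowing-up of `X = Spec A` in `V(I)` is a log desingularization of `(X, V(D))` along the
valuation ring `V`. Here `f ∈ I` generates `I V`, the centre of the lift of the valuation lies in
the chart `Spec A[I / f]`, and the ideal `D I` defines the preimage of `V(D) ∪ V(I)`. -/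
def IsLogDesingularization {F : Type u} [Field F] (V : ValuationSubring F) (A : Subring F)
    (D I : Ideal A) : Prop :=
  ∃ f ∈ I, f ≠ 0 ∧ (∀ a ∈ I, (a : F) / (f : F) ∈ V) ∧
    RegularPair (centreRing V (blowUpChart A I f))
      (Ideal.span {z | ∃ a ∈ D * I, (z : F) = (a : F)})

/-- The valuation ring `V` is log uniformizable on `Spec A`. (The blowings-up in the ideals
`I₀ * I₁` are cofinal: the blowing-up in `I₀ * I₁` factors through the blowing-up in `I₀`.) -/
def IsLogUniformizable {F : Type u} [Field F] (V : ValuationSubring F) (A : Subring F) : Prop :=
  ∀ D I₀ : Ideal A, D ≠ ⊥ → I₀ ≠ ⊥ →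
    ∃ I₁ : Ideal A, I₁ ≠ ⊥ ∧ IsLogDesingularization V A D (I₀ * I₁)

/-- The valuation rings `V i` are simultaneously log uniformizable on `X = Spec A`: for every closed
subset `V(D) ≠ X` and for every blowing-up `X₀` of `X` in an ideal `I₀` there is an ideal `I₁` such
that the blowing-up in `I₀ * I₁`, which factors through `X₀`, is a log desingularization of
`(X, V(D))` along all the `V i`, and every prime ideal which contains `I₁` contains the centre
`{a ∈ A | |a| < 1}` of a nontrivial valuation ring `W` which contains some `V i` (equivalently, the
centre of the coarsening of rank one of some `V i`; if `V i` has rank one, this is `V i`). -/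
def IsSimultaneouslyLogUniformizable {F : Type u} [Field F] {m : ℕ}
    (V : Fin m → ValuationSubring F) (A : Subring F) : Prop :=
  ∀ D I₀ : Ideal A, D ≠ ⊥ → I₀ ≠ ⊥ →
    ∃ I₁ : Ideal A, I₁ ≠ ⊥ ∧ (∀ i, IsLogDesingularization (V i) A D (I₀ * I₁)) ∧
      ∀ q : Ideal A, q.IsPrime → I₁ ≤ q → ∃ (i : Fin m) (W : ValuationSubring F),
        V i ≤ W ∧ W ≠ ⊤ ∧ ∀ a : A, W.valuation (a : F) < 1 → a ∈ q

/-- Two valuation rings `V` and `W` of `F` are independent if `F` is the only valuation ring of `F`
which contains both. -/
def AreIndependent {F : Type u} [Field F] (V W : ValuationSubring F) : Prop :=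
  ∀ U : ValuationSubring F, V ≤ U → W ≤ U → U = ⊤

/-- Let `A` be a noetherian domain with the fraction field `F`, and let `V i` be finitely many
pairwise independent nontrivial valuation rings of `F` (of arbitrary rank) which contain `A` and
which are log uniformizable on `X = Spec A`. Then they are simultaneously log uniformizable on `X`:
for every closed subset `V(D) ≠ X` and for every blowing-up `X₀` of `X` there is a blowing-up of `X`
which factors through `X₀`, which is a log desingularization of `(X, V(D))` along all the `V i`, and
which is an isomorphism over `X₀` outside of the closures of the centres of the coarsenings of rank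
one of the `V i`. -/
theorem result {F : Type u} [Field F] (A : Subring F) [IsNoetherianRing A]
    (hAF : ∀ z : F, ∃ a ∈ A, ∃ b ∈ A, b ≠ 0 ∧ z = a * b⁻¹) {m : ℕ}
    (V : Fin m → ValuationSubring F) (hV : ∀ i, V i ≠ ⊤)
    (hind : ∀ i j, i ≠ j → AreIndependent (V i) (V j)) (hAV : ∀ i, A ≤ (V i).toSubring)
    (hLU : ∀ i, IsLogUniformizable (V i) A) : IsSimultaneouslyLogUniformizable V A := by
  intro D I₀ hD hI₀
  exact Pool.Agent.H893.SC.sim_indep A V hV hind (fun i => ⟨hAV i, hAF⟩)
    (fun i => Pool.Agent.H176.DT.p_base (V i) A ⟨hAV i, hAF⟩ (hLU i)) D I₀ hD hI₀

end Pool.Agent.Results.MP_5b7a2c_ag.SimultaneousUniformization
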